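import Mathlib

set_option autoImplicit false

/-!
# A quadratic equation in three dimensions without `K_{3,3}`
-/

namespace Pool.Agent.TH17.LD

open Finset

section

variable {F : Type} [Field F]

theorem aniso_mul (hF : ∀ u v : F, u ^ 2 + v ^ 2 = 0 → u = 0 ∧ v = 0)
    (y v d η ν δ lam : F) (h0 : lam ≠ 0) (h1 : lam ≠ 1)
    (hb : ¬ (η = 0 ∧ ν = 0 ∧ δ = 0)) (x u c x' u' c' : F)
    (hne : ¬ (x = x' ∧ u = u' ∧ c = c'))
    (e0 : (x + y) ^ 2 + (u + v) ^ 2 = c * d)
    (e1 : (x + (y + η)) ^ 2 + (u + (v + ν)) ^ 2 = c * (d + δ))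
    (e2 : (x + (y + lam * η)) ^ 2 + (u + (v + lam * ν)) ^ 2 = c * (d + lam * δ))
    (e0' : (x' + y) ^ 2 + (u' + v) ^ 2 = c' * d)
    (e1' : (x' + (y + η)) ^ 2 + (u' + (v + ν)) ^ 2 = c' * (d + δ)) : False := by
  have h2 : lam * (lam - 1) * (η ^ 2 + ν ^ 2) = 0 := by
    linear_combination e2 - lam * e1 + (lam - 1) * e0
  have h3 : η ^ 2 + ν ^ 2 = 0 := by
    rcases mul_eq_zero.1 h2 with h | h
    · exfalso
      rcases mul_eq_zero.1 h with h | h
      · exact h0 h
      · exact h1 (sub_eq_zero.1 h)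
    · exact h
  obtain ⟨rfl, rfl⟩ := hF _ _ h3
  have hδ : δ ≠ 0 := fun h => hb ⟨rfl, rfl, h⟩
  have h4 : c = 0 := by
    have : c * δ = 0 := by linear_combination e0 - e1
    exact (mul_eq_zero.1 this).resolve_right hδ
  have h5 : c' = 0 := by
    have : c' * δ = 0 := by linear_combination e0' - e1'
    exact (mul_eq_zero.1 this).resolve_right hδ
  subst h4 h5
  rw [zero_mul] at e0 e0'
  obtain ⟨a1, a2⟩ := hF _ _ e0
  obtain ⟨a3, a4⟩ := hF _ _ e0'
  refine hne ⟨?_, ?_, rfl⟩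
  · linear_combination a1 - a3
  · linear_combination a2 - a4

/-- proportional vectors -/
theorem exists_lam (a : Fin 3 → F) (b : Fin 3 → F) (ha : a ≠ 0)
    (h : ∀ i j, a i * b j = a j * b i) : ∃ lam : F, ∀ i, b i = lam * a i := by
  obtain ⟨i, hi⟩ := Function.ne_iff.1 ha
  refine ⟨b i / a i, fun j => ?_⟩
  have hi' : a i ≠ 0 := hi
  field_simp
  rw [mul_comm, h i j, mul_comm]

theorem cross (a a' b b' : Fin 3 → F)
    (h1 : a 0 * b 0 + a 1 * b 1 + a 2 * b 2 = 0) (h2 : a 0 * b' 0 + a 1 * b' 1 + a 2 * b' 2 = 0)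
    (h3 : a' 0 * b 0 + a' 1 * b 1 + a' 2 * b 2 = 0)
    (h4 : a' 0 * b' 0 + a' 1 * b' 1 + a' 2 * b' 2 = 0) :
    (∀ i j, a i * a' j = a j * a' i) ∨ (∀ i j, b i * b' j = b j * b' i) := by
  by_contra hcon
  push Not at hcon
  obtain ⟨⟨i, j, hij⟩, ⟨k, l, hkl⟩⟩ := hcon
  -- the normal vector
  set n0 := b 1 * b' 2 - b 2 * b' 1 with hn0
  set n1 := b 2 * b' 0 - b 0 * b' 2 with hn1
  set n2 := b 0 * b' 1 - b 1 * b' 0 with hn2
  have p01 : a 0 * n1 = a 1 * n0 := by rw [hn0, hn1]; linear_combination b 2 * h2 - b' 2 * h1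
  have p02 : a 0 * n2 = a 2 * n0 := by rw [hn0, hn2]; linear_combination b' 1 * h1 - b 1 * h2
  have p12 : a 1 * n2 = a 2 * n1 := by rw [hn1, hn2]; linear_combination b 0 * h2 - b' 0 * h1
  have q01 : a' 0 * n1 = a' 1 * n0 := by rw [hn0, hn1]; linear_combination b 2 * h4 - b' 2 * h3
  have q02 : a' 0 * n2 = a' 2 * n0 := by rw [hn0, hn2]; linear_combination b' 1 * h3 - b 1 * h4
  have q12 : a' 1 * n2 = a' 2 * n1 := by rw [hn1, hn2]; linear_combination b 0 * h4 - b' 0 * h3
  have hn : n0 ≠ 0 ∨ n1 ≠ 0 ∨ n2 ≠ 0 := by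
    by_contra hc
    push Not at hc
    obtain ⟨z0, z1, z2⟩ := hc
    apply hkl
    rw [hn0] at z0
    rw [hn1] at z1
    rw [hn2] at z2
    fin_cases k <;> fin_cases l <;> simp only [Fin.mk_one, Fin.zero_eta, Fin.reduceFinMk] <;>
      first | rfl | linear_combination z0 | linear_combination z1 | linear_combination z2 |
        linear_combination -z0 | linear_combination -z1 | linear_combination -z2
  apply hij
  have key : ∀ n : F, n ≠ 0 → ∀ x y : F, n * x = n * y → x = y := fun n hn x y h =>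
    mul_left_cancel₀ hn h
  have r01 : n0 * (a 0 * a' 1 - a 1 * a' 0) = 0 ∧ n1 * (a 0 * a' 1 - a 1 * a' 0) = 0 ∧
      n2 * (a 0 * a' 1 - a 1 * a' 0) = 0 := by
    refine ⟨?_, ?_, ?_⟩
    · linear_combination a' 0 * p01 - a 0 * q01
    · linear_combination a' 1 * p01 - a 1 * q01
    · linear_combination a' 1 * p02 - a' 0 * p12 + a 2 * (-q01)
  have r02 : n0 * (a 0 * a' 2 - a 2 * a' 0) = 0 ∧ n1 * (a 0 * a' 2 - a 2 * a' 0) = 0 ∧
      n2 * (a 0 * a' 2 - a 2 * a' 0) = 0 := by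
    refine ⟨?_, ?_, ?_⟩
    · linear_combination a' 0 * p02 - a 0 * q02
    · linear_combination a' 2 * p01 + a' 0 * p12 - a 1 * q02
    · linear_combination a' 2 * p02 - a 2 * q02
  have r12 : n0 * (a 1 * a' 2 - a 2 * a' 1) = 0 ∧ n1 * (a 1 * a' 2 - a 2 * a' 1) = 0 ∧
      n2 * (a 1 * a' 2 - a 2 * a' 1) = 0 := by
    refine ⟨?_, ?_, ?_⟩
    · linear_combination -(a' 2 * p01) + a' 1 * p02 - a 0 * q12
    · linear_combination a' 1 * p12 - a 1 * q12
    · linear_combination a' 2 * p12 - a 2 * q12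
  have fin : (a 0 * a' 1 - a 1 * a' 0 = 0) ∧ (a 0 * a' 2 - a 2 * a' 0 = 0) ∧
      (a 1 * a' 2 - a 2 * a' 1 = 0) := by
    rcases hn with h | h | h
    · exact ⟨(mul_eq_zero.1 r01.1).resolve_left h, (mul_eq_zero.1 r02.1).resolve_left h,
        (mul_eq_zero.1 r12.1).resolve_left h⟩
    · exact ⟨(mul_eq_zero.1 r01.2.1).resolve_left h, (mul_eq_zero.1 r02.2.1).resolve_left h,
        (mul_eq_zero.1 r12.2.1).resolve_left h⟩
    · exact ⟨(mul_eq_zero.1 r01.2.2).resolve_left h, (mul_eq_zero.1 r02.2.2).resolve_left h,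
        (mul_eq_zero.1 r12.2.2).resolve_left h⟩
  obtain ⟨f1, f2, f3⟩ := fin
  fin_cases i <;> fin_cases j <;> simp only [Fin.mk_one, Fin.zero_eta, Fin.reduceFinMk] <;>
    first | rfl | linear_combination f1 | linear_combination f2 | linear_combination f3 |
      linear_combination -f1 | linear_combination -f2 | linear_combination -f3

/-- `K_{3,3}` does not occur -/
theorem no_K33 (hF : ∀ u v : F, u ^ 2 + v ^ 2 = 0 → u = 0 ∧ v = 0) (h2F : (2 : F) ≠ 0)
    (a b : Fin 3 → Fin 3 → F) (ha : Function.Injective a) (hb : Function.Injective b)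
    (h : ∀ i j, (a i 0 + b j 0) ^ 2 + (a i 1 + b j 1) ^ 2 = a i 2 * b j 2) : False := by
  -- the collinear case
  have main : ∀ a b : Fin 3 → Fin 3 → F, Function.Injective a → Function.Injective b →
      (∀ i j, (a i 0 + b j 0) ^ 2 + (a i 1 + b j 1) ^ 2 = a i 2 * b j 2) →
      (∀ k l, (b 1 k - b 0 k) * (b 2 l - b 0 l) = (b 1 l - b 0 l) * (b 2 k - b 0 k)) → False := by
    intro a b ha hb h hc
    have hb1 : (fun k => b 1 k - b 0 k) ≠ 0 := by
      intro h1
      have : b 1 = b 0 := by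
        funext k
        exact sub_eq_zero.1 (congrFun h1 k)
      exact absurd (hb this) (by decide)
    obtain ⟨lam, hlam⟩ := exists_lam (fun k => b 1 k - b 0 k) (fun k => b 2 k - b 0 k) hb1 hc
    have hl0 : lam ≠ 0 := by
      rintro rfl
      have : b 2 = b 0 := by
        funext k
        have := hlam k
        rw [zero_mul] at this
        exact sub_eq_zero.1 this
      exact absurd (hb this) (by decide)
    have hl1 : lam ≠ 1 := by
      rintro rfl
      have : b 2 = b 1 := by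
        funext k
        have := hlam k
        linear_combination this
      exact absurd (hb this) (by decide)
    have e2 : ∀ k, b 2 k = b 0 k + lam * (b 1 k - b 0 k) := fun k => by
      linear_combination hlam k
    have e1 : ∀ k, b 1 k = b 0 k + (b 1 k - b 0 k) := fun k => by ring
    refine aniso_mul hF (b 0 0) (b 0 1) (b 0 2) (b 1 0 - b 0 0) (b 1 1 - b 0 1) (b 1 2 - b 0 2) lam
      hl0 hl1 ?_ (a 0 0) (a 0 1) (a 0 2) (a 1 0) (a 1 1) (a 1 2) ?_ (h 0 0) ?_ ?_ (h 1 0) ?_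
    · rintro ⟨z0, z1, z2⟩
      apply hb1
      funext k
      fin_cases k
      · exact z0
      · exact z1
      · exact z2
    · rintro ⟨z0, z1, z2⟩
      have : a 0 = a 1 := by
        funext k
        fin_cases k
        · exact z0
        · exact z1
        · exact z2
      exact absurd (ha this) (by decide)
    · rw [← e1, ← e1, ← e1]; exact h 0 1
    · rw [← e2, ← e2, ← e2]; exact h 0 2
    · rw [← e1, ← e1, ← e1]; exact h 1 1
  -- orthogonality
  have orth : ∀ i j, 2 * (a i 0 - a 0 0) * (b j 0 - b 0 0) + 2 * (a i 1 - a 0 1) * (b j 1 - b 0 1) +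
      -(a i 2 - a 0 2) * (b j 2 - b 0 2) = 0 := by
    intro i j
    linear_combination h i j - h 0 j - h i 0 + h 0 0
  rcases cross ![2 * (a 1 0 - a 0 0), 2 * (a 1 1 - a 0 1), -(a 1 2 - a 0 2)]
      ![2 * (a 2 0 - a 0 0), 2 * (a 2 1 - a 0 1), -(a 2 2 - a 0 2)]
      (fun k => b 1 k - b 0 k) (fun k => b 2 k - b 0 k) (orth 1 1) (orth 1 2) (orth 2 1) (orth 2 2)
      with h1 | h1
  · refine main b a hb ha (fun i j => ?_) ?_
    · have := h j i
      linear_combination this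
    · have c01 := h1 0 1
      have c02 := h1 0 2
      have c12 := h1 1 2
      simp only [Matrix.cons_val_zero, Matrix.cons_val_one, Matrix.cons_val] at c01 c02 c12
      have d01 : (a 1 0 - a 0 0) * (a 2 1 - a 0 1) = (a 1 1 - a 0 1) * (a 2 0 - a 0 0) := by
        have : (2 * 2) * ((a 1 0 - a 0 0) * (a 2 1 - a 0 1)) =
            (2 * 2) * ((a 1 1 - a 0 1) * (a 2 0 - a 0 0)) := by linear_combination c01
        exact mul_left_cancel₀ (mul_ne_zero h2F h2F) this
      have d02 : (a 1 0 - a 0 0) * (a 2 2 - a 0 2) = (a 1 2 - a 0 2) * (a 2 0 - a 0 0) := by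
        have : (2 : F) * ((a 1 0 - a 0 0) * (a 2 2 - a 0 2)) =
            2 * ((a 1 2 - a 0 2) * (a 2 0 - a 0 0)) := by linear_combination -c02
        exact mul_left_cancel₀ h2F this
      have d12 : (a 1 1 - a 0 1) * (a 2 2 - a 0 2) = (a 1 2 - a 0 2) * (a 2 1 - a 0 1) := by
        have : (2 : F) * ((a 1 1 - a 0 1) * (a 2 2 - a 0 2)) =
            2 * ((a 1 2 - a 0 2) * (a 2 1 - a 0 1)) := by linear_combination -c12
        exact mul_left_cancel₀ h2F this
      intro k l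
      fin_cases k <;> fin_cases l <;> simp only [Fin.mk_one, Fin.zero_eta, Fin.reduceFinMk] <;>
        first | ring1 | exact d01 | exact d02 | exact d12 | exact d01.symm | exact d02.symm |
          exact d12.symm
  · exact main a b ha hb h h1

end

open MvPolynomial in
/-- the quadratic polynomial `(x₀ + y₀)² + (x₁ + y₁)² - x₂ y₂` -/
noncomputable def quadPoly (F : Type) [Field F] : MvPolynomial (Fin 3 ⊕ Fin 3) F :=
  (X (Sum.inl 0) + X (Sum.inr 0)) ^ 2 + (X (Sum.inl 1) + X (Sum.inr 1)) ^ 2 -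
    X (Sum.inl 2) * X (Sum.inr 2)

open MvPolynomial in
theorem quadPoly_deg (F : Type) [Field F] : (quadPoly F).totalDegree ≤ 2 := by
  unfold quadPoly
  have hX : ∀ i : Fin 3 ⊕ Fin 3, (X i : MvPolynomial (Fin 3 ⊕ Fin 3) F).totalDegree ≤ 1 :=
    fun i => (totalDegree_X i).le
  have h1 : ∀ i j : Fin 3 ⊕ Fin 3,
      ((X i + X j : MvPolynomial (Fin 3 ⊕ Fin 3) F) ^ 2).totalDegree ≤ 2 := by
    intro i j
    refine (totalDegree_pow _ _).trans ?_
    have := (totalDegree_add (X i : MvPolynomial (Fin 3 ⊕ Fin 3) F) (X j)).trans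
      (max_le (hX i) (hX j))
    omega
  have h2 : ∀ i j : Fin 3 ⊕ Fin 3,
      (X i * X j : MvPolynomial (Fin 3 ⊕ Fin 3) F).totalDegree ≤ 2 := by
    intro i j
    refine (totalDegree_mul _ _).trans ?_
    have := hX i
    have := hX j
    omega
  refine (totalDegree_sub _ _).trans (max_le ?_ (h2 _ _))
  exact (totalDegree_add _ _).trans (max_le (h1 _ _) (h1 _ _))

theorem quadPoly_eval (F : Type) [Field F] (x y : Fin 3 → F) :
    MvPolynomial.eval (Sum.elim x y) (quadPoly F) =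
      (x 0 + y 0) ^ 2 + (x 1 + y 1) ^ 2 - x 2 * y 2 := by
  simp [quadPoly]

/-- the graph -/
def quadGraph (F : Type) [Field F] : SimpleGraph (Fin 3 → F) where
  Adj x y := x ≠ y ∧ (x 0 + y 0) ^ 2 + (x 1 + y 1) ^ 2 = x 2 * y 2
  symm := ⟨fun x y h => ⟨h.1.symm, by rw [add_comm (y 0), add_comm (y 1), mul_comm (y 2)]; exact h.2⟩⟩
  loopless := ⟨fun x h => h.1 rfl⟩

theorem quadGraph_free (F : Type) [Field F] (hF : ∀ u v : F, u ^ 2 + v ^ 2 = 0 → u = 0 ∧ v = 0)
    (h2F : (2 : F) ≠ 0) : (completeBipartiteGraph (Fin 3) (Fin 3)).Free (quadGraph F) := by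
  rintro ⟨f⟩
  refine no_K33 hF h2F (fun i => f (Sum.inl i)) (fun j => f (Sum.inr j)) ?_ ?_ ?_
  · intro i j hij
    exact Sum.inl_injective (f.injective hij)
  · intro i j hij
    exact Sum.inr_injective (f.injective hij)
  · intro i j
    have : (quadGraph F).Adj (f (Sum.inl i)) (f (Sum.inr j)) := f.toHom.map_adj (by simp)
    exact this.2

theorem quadGraph_edges (F : Type) [Field F] [Fintype F] :
    (Fintype.card F - 1) * Fintype.card F ^ 2 * (Fintype.card F ^ 2 - 1) ≤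
      2 * Nat.card (quadGraph F).edgeSet := by
  classical
  set q := Fintype.card F with hq
  have hdeg : ∀ v : Fin 3 → F, v 2 ≠ 0 → q ^ 2 - 1 ≤ (quadGraph F).degree v := by
    intro v hv
    let g : F × F → (Fin 3 → F) := fun a =>
      ![a.1, a.2, ((v 0 + a.1) ^ 2 + (v 1 + a.2) ^ 2) / v 2]
    have hg : Function.Injective g := by
      intro a b hab
      have h0 := congrFun hab 0
      have h1 := congrFun hab 1
      exact Prod.ext h0 h1
    have hsub : (univ.image g).erase v ⊆ (quadGraph F).neighborFinset v := by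
      intro w hw
      rw [Finset.mem_erase, Finset.mem_image] at hw
      obtain ⟨hne, a, -, rfl⟩ := hw
      rw [SimpleGraph.mem_neighborFinset]
      refine ⟨hne.symm, ?_⟩
      change (v 0 + a.1) ^ 2 + (v 1 + a.2) ^ 2 = v 2 * (((v 0 + a.1) ^ 2 + (v 1 + a.2) ^ 2) / v 2)
      field_simp
    have h1 := Finset.card_le_card hsub
    rw [SimpleGraph.card_neighborFinset_eq_degree] at h1
    have h2 := Finset.pred_card_le_card_erase (s := univ.image g) (a := v)
    rw [Finset.card_image_of_injective _ hg, Finset.card_univ, Fintype.card_prod, ← hq] at h2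
    rw [sq]
    omega
  have hcard : (q - 1) * q ^ 2 ≤ (univ.filter fun v : Fin 3 → F => v 2 ≠ 0).card := by
    let g : Fˣ × F × F → (Fin 3 → F) := fun a => ![a.2.1, a.2.2, (a.1 : F)]
    have hg : Function.Injective g := by
      intro a b hab
      have h0 := congrFun hab 0
      have h1 := congrFun hab 1
      have h2 := congrFun hab 2
      exact Prod.ext (Units.ext h2) (Prod.ext h0 h1)
    have hsub : univ.image g ⊆ univ.filter fun v : Fin 3 → F => v 2 ≠ 0 := by
      intro w hw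
      rw [Finset.mem_image] at hw
      obtain ⟨a, -, rfl⟩ := hw
      exact Finset.mem_filter.2 ⟨Finset.mem_univ _, a.1.ne_zero⟩
    have h1 := Finset.card_le_card hsub
    rw [Finset.card_image_of_injective _ hg, Finset.card_univ, Fintype.card_prod,
      Fintype.card_prod, Fintype.card_units] at h1
    rw [sq]
    exact h1
  rw [Nat.card_eq_fintype_card, ← SimpleGraph.edgeFinset_card,
    ← (quadGraph F).sum_degrees_eq_twice_card_edges]
  calc (q - 1) * q ^ 2 * (q ^ 2 - 1)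
      ≤ (univ.filter fun v : Fin 3 → F => v 2 ≠ 0).card * (q ^ 2 - 1) :=
        Nat.mul_le_mul_right _ hcard
    _ = ∑ v ∈ univ.filter fun v : Fin 3 → F => v 2 ≠ 0, (q ^ 2 - 1) := by
        rw [Finset.sum_const, smul_eq_mul]
    _ ≤ ∑ v ∈ univ.filter fun v : Fin 3 → F => v 2 ≠ 0, (quadGraph F).degree v :=
        Finset.sum_le_sum fun v hv => hdeg v (Finset.mem_filter.1 hv).2
    _ ≤ ∑ v, (quadGraph F).degree v :=
        Finset.sum_le_sum_of_subset (Finset.subset_univ _)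

theorem quadGraph_order (F : Type) [Field F] [Fintype F] (h3 : 3 ≤ Fintype.card F) :
    (1 / 4 : ℝ) * (Nat.card (Fin 3 → F) : ℝ) ^ (2 - 1 / ((3 : ℕ) : ℝ)) ≤
      Nat.card (quadGraph F).edgeSet := by
  have h1 := quadGraph_edges F
  set q := Fintype.card F with hq
  have h3' : (3 : ℝ) ≤ q := by exact_mod_cast h3
  have e1 : Nat.card (Fin 3 → F) = q ^ 3 := by
    rw [Nat.card_eq_fintype_card, Fintype.card_fun, Fintype.card_fin]
  have e2 : ((Nat.card (Fin 3 → F) : ℕ) : ℝ) ^ (2 - 1 / ((3 : ℕ) : ℝ)) = (q : ℝ) ^ 5 := by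
    rw [e1]
    push_cast
    rw [← Real.rpow_natCast, ← Real.rpow_natCast, ← Real.rpow_mul (by positivity)]
    norm_num
  rw [e2]
  have h2 : ((q : ℝ) - 1) * q ^ 2 * (q ^ 2 - 1) ≤ 2 * Nat.card (quadGraph F).edgeSet := by
    have hq2 : 1 ≤ q ^ 2 := Nat.one_le_pow _ _ (by omega)
    have := h1
    zify [hq2, (by omega : 1 ≤ q)] at this
    exact_mod_cast this
  nlinarith [mul_nonneg (mul_nonneg (sq_nonneg (q : ℝ)) (by linarith : (0 : ℝ) ≤ q - 3))
    (by positivity : (0 : ℝ) ≤ (q : ℝ) ^ 2), pow_nonneg (by linarith : (0 : ℝ) ≤ (q : ℝ)) 3,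
    mul_nonneg (mul_nonneg (sq_nonneg (q : ℝ)) (by linarith : (0 : ℝ) ≤ q - 3))
    (by linarith : (0 : ℝ) ≤ (q : ℝ)), mul_nonneg (sq_nonneg (q : ℝ)) (by linarith : (0 : ℝ) ≤ q - 3)]

end Pool.Agent.TH17.LD
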