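import Mathlib

set_option autoImplicit false

/-!
# Functions on `F^σ` given by polynomials of bounded degree
-/

namespace Pool.Agent.TH17.LD

open Finset

/-- monomial functions -/
def mono {F : Type} [Field F] {σ : Type} [Fintype σ] (s : σ → ℕ) : (σ → F) → F :=
  fun x => ∏ i, x i ^ s i

/-- the functions given by polynomials of degree at most `D` -/
def P (F : Type) [Field F] (σ : Type) [Fintype σ] (D : ℕ) : Submodule F ((σ → F) → F) :=
  Submodule.span F {φ | ∃ s : σ → ℕ, ∑ i, s i ≤ D ∧ φ = mono s}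

variable {F : Type} [Field F] {σ τ : Type} [Fintype σ] [Fintype τ]

theorem mono_mem {s : σ → ℕ} {D : ℕ} (h : ∑ i, s i ≤ D) : (mono s : (σ → F) → F) ∈ P F σ D :=
  Submodule.subset_span ⟨s, h, rfl⟩

theorem P_mono {D D' : ℕ} (h : D ≤ D') : P F σ D ≤ P F σ D' :=
  Submodule.span_mono fun _ ⟨s, hs, e⟩ => ⟨s, hs.trans h, e⟩

theorem mono_mul (s t : σ → ℕ) : (mono s * mono t : (σ → F) → F) = mono (s + t) := by
  funext x
  simp only [mono, Pi.mul_apply, Pi.add_apply, pow_add, Finset.prod_mul_distrib]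

theorem mul_mem {a b : ℕ} {φ ψ : (σ → F) → F} (h1 : φ ∈ P F σ a) (h2 : ψ ∈ P F σ b) :
    φ * ψ ∈ P F σ (a + b) := by
  have h : φ * ψ ∈ P F σ a * P F σ b := Submodule.mul_mem_mul h1 h2
  refine (Submodule.mul_le.2 ?_ : P F σ a * P F σ b ≤ P F σ (a + b)) h
  intro m hm n hn
  induction hm using Submodule.span_induction with
  | mem x hx =>
    obtain ⟨s, hs, rfl⟩ := hx
    induction hn using Submodule.span_induction with
    | mem y hy =>
      obtain ⟨t, ht, rfl⟩ := hy
      rw [mono_mul]
      refine mono_mem ?_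
      simp only [Pi.add_apply, Finset.sum_add_distrib]
      omega
    | zero => rw [mul_zero]; exact Submodule.zero_mem _
    | add y z _ _ hy hz => rw [mul_add]; exact Submodule.add_mem _ hy hz
    | smul c y _ hy => rw [mul_smul_comm]; exact Submodule.smul_mem _ _ hy
  | zero => rw [zero_mul]; exact Submodule.zero_mem _
  | add y z _ _ hy hz => rw [add_mul]; exact Submodule.add_mem _ hy hz
  | smul c y _ hy => rw [smul_mul_assoc]; exact Submodule.smul_mem _ _ hy

theorem one_mem (D : ℕ) : (1 : (σ → F) → F) ∈ P F σ D := by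
  have e : (1 : (σ → F) → F) = mono 0 := by
    funext x
    simp [mono]
  rw [e]
  exact mono_mem (by simp)

theorem const_mem (c : F) (D : ℕ) : (fun _ => c : (σ → F) → F) ∈ P F σ D := by
  have e : (fun _ => c : (σ → F) → F) = c • (1 : (σ → F) → F) := by
    funext x
    simp
  rw [e]
  exact Submodule.smul_mem _ _ (one_mem D)

theorem coord_mem [DecidableEq σ] (i : σ) : (fun x => x i : (σ → F) → F) ∈ P F σ 1 := by
  have e : (fun x => x i : (σ → F) → F) = mono (Pi.single i 1) := by
    funext x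
    simp only [mono]
    rw [Finset.prod_eq_single i]
    · simp
    · intro j _ hj
      simp [hj]
    · simp
  rw [e]
  refine mono_mem ?_
  simp

theorem pow_mem {d : ℕ} {φ : (σ → F) → F} (h : φ ∈ P F σ d) (n : ℕ) : φ ^ n ∈ P F σ (n * d) := by
  induction n with
  | zero => rw [pow_zero]; exact one_mem _
  | succ n ih =>
    rw [pow_succ, Nat.succ_mul]
    exact mul_mem ih h

theorem prod_mem {J : Type} (s : Finset J) (φ : J → (σ → F) → F) (d : J → ℕ)
    (h : ∀ j ∈ s, φ j ∈ P F σ (d j)) : (∏ j ∈ s, φ j) ∈ P F σ (∑ j ∈ s, d j) := by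
  classical
  induction s using Finset.induction_on with
  | empty => simpa using one_mem _
  | insert j s hj ih =>
    rw [Finset.prod_insert hj, Finset.sum_insert hj]
    exact mul_mem (h j (Finset.mem_insert_self _ _))
      (ih fun i hi => h i (Finset.mem_insert_of_mem hi))

/-- substituting constants for some of the coordinates and renaming the other ones -/
theorem sub_mem {D : ℕ} {φ : (σ → F) → F} (h : φ ∈ P F σ D) (g : (τ → F) → (σ → F))
    (hg : ∀ s : σ → ℕ, ∃ (c : F) (s' : τ → ℕ), ∑ i, s' i ≤ ∑ i, s i ∧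
      ∀ x, mono s (g x) = c * mono s' x) : (fun x => φ (g x)) ∈ P F τ D := by
  induction h using Submodule.span_induction with
  | mem x hx =>
    obtain ⟨s, hs, rfl⟩ := hx
    obtain ⟨c, s', h1, h2⟩ := hg s
    have e : (fun x => mono s (g x)) = c • (mono s' : (τ → F) → F) := by
      funext x
      rw [h2]
      rfl
    rw [e]
    exact Submodule.smul_mem _ _ (mono_mem (h1.trans hs))
  | zero => exact Submodule.zero_mem _
  | add y z _ _ hy hz => exact Submodule.add_mem _ hy hz
  | smul c y _ hy => exact Submodule.smul_mem _ c hy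

theorem left_mem {D : ℕ} {φ : (σ ⊕ τ → F) → F} (h : φ ∈ P F (σ ⊕ τ) D) (y : τ → F) :
    (fun x => φ (Sum.elim x y)) ∈ P F σ D := by
  refine sub_mem h (fun x => Sum.elim x y) fun s =>
    ⟨∏ i, y i ^ s (Sum.inr i), fun i => s (Sum.inl i), ?_, fun x => ?_⟩
  · rw [Fintype.sum_sum_type]
    exact Nat.le_add_right _ _
  · simp only [mono, Fintype.prod_sum_type, Sum.elim_inl, Sum.elim_inr]
    ring

theorem right_mem {D : ℕ} {φ : (σ ⊕ τ → F) → F} (h : φ ∈ P F (σ ⊕ τ) D) (x : σ → F) :
    (fun y => φ (Sum.elim x y)) ∈ P F τ D := by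
  refine sub_mem h (fun y => Sum.elim x y) fun s =>
    ⟨∏ i, x i ^ s (Sum.inl i), fun i => s (Sum.inr i), ?_, fun y => ?_⟩
  · rw [Fintype.sum_sum_type]
    exact Nat.le_add_left _ _
  · simp only [mono, Fintype.prod_sum_type, Sum.elim_inl, Sum.elim_inr]

theorem cons_mem {n D : ℕ} {φ : (Fin (n + 1) → F) → F} (h : φ ∈ P F (Fin (n + 1)) D) (c : F) :
    (fun x : Fin n → F => φ (Fin.cons c x)) ∈ P F (Fin n) D := by
  refine sub_mem h (fun x => Fin.cons c x) fun s =>
    ⟨c ^ s 0, fun i => s i.succ, ?_, fun x => ?_⟩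
  · rw [Fin.sum_univ_succ]
    exact Nat.le_add_left _ _
  · simp only [mono, Fin.prod_univ_succ, Fin.cons_zero, Fin.cons_succ]

theorem reindex_mem {D : ℕ} {φ : (σ → F) → F} (h : φ ∈ P F σ D) (e : σ ≃ τ) :
    (fun x : τ → F => φ (x ∘ e)) ∈ P F τ D := by
  refine sub_mem h (fun x => x ∘ e) fun s => ⟨1, fun i => s (e.symm i), ?_, fun x => ?_⟩
  · exact le_of_eq (e.symm.sum_comp s)
  · simp only [mono, Function.comp_apply, one_mul]
    refine Fintype.prod_equiv e _ _ fun i => ?_
    simp

/-- values of polynomials -/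
theorem eval_mem (f : MvPolynomial σ F) : (fun x => MvPolynomial.eval x f) ∈ P F σ f.totalDegree := by
  have e : (fun x => MvPolynomial.eval x f) =
      ∑ d ∈ f.support, f.coeff d • (mono (fun i => d i) : (σ → F) → F) := by
    funext x
    rw [MvPolynomial.eval_eq', Finset.sum_apply]
    rfl
  rw [e]
  refine Submodule.sum_mem _ fun d hd => Submodule.smul_mem _ _ (mono_mem ?_)
  have := MvPolynomial.le_totalDegree hd
  rw [Finsupp.sum_fintype _ _ (fun _ => rfl)] at this
  exact this

end Pool.Agent.TH17.LD
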