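import Pool.Agent.TH17.LD.Expand

set_option autoImplicit false

/-!
# Flats in the neighbourhoods
-/

namespace Pool.Agent.TH17.LD

open Finset Module

theorem hockey (k : ℕ) : ∀ d : ℕ,
    ∑ l : Fin (d + 1), (d - (l : ℕ) + k).choose (k + 1) = (d + (k + 1)).choose (k + 1 + 1) := by
  intro d
  rw [Fin.sum_univ_eq_sum_range (fun l => (d - l + k).choose (k + 1))]
  have h : ∀ d : ℕ, ∑ i ∈ range (d + 1), (i + k).choose (k + 1) =
      (d + (k + 1)).choose (k + 1 + 1) := by
    intro d
    induction d with
    | zero => simp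
    | succ d ih =>
      rw [Finset.sum_range_succ, ih]
      have := Nat.choose_succ_succ (d + (k + 1)) (k + 1)
      rw [show d + 1 + (k + 1) = (d + (k + 1)).succ by omega, this,
        show d + 1 + k = d + (k + 1) by omega]
      exact add_comm _ _
  rw [← h d, ← Finset.sum_range_reflect]
  refine Finset.sum_congr rfl fun l hl => ?_
  rw [Finset.mem_range] at hl
  congr 2
  omega

theorem gauss (d : ℕ) : ∑ l : Fin d, ((l : ℕ) + 1) = (d + 1).choose 2 := by
  rw [Fin.sum_univ_eq_sum_range (fun l => l + 1)]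
  induction d with
  | zero => simp
  | succ d ih =>
    rw [Finset.sum_range_succ, ih, Nat.choose_succ_succ (d + 1) 1]
    simp
    ring

theorem choose_le (d k : ℕ) : (d + 1).choose 2 ≤ (d + (k + 1)).choose (k + 1 + 1) := by
  rcases Nat.eq_zero_or_pos d with rfl | hd
  · simp
  have h1 : (d + 1).choose 2 = (d + 1).choose (d - 1) := by
    rw [← Nat.choose_symm (by omega : d - 1 ≤ d + 1)]
    congr 1
    omega
  have h2 : (d + (k + 1)).choose (k + 1 + 1) = (d + (k + 1)).choose (d - 1) := by
    rw [← Nat.choose_symm (by omega : d - 1 ≤ d + (k + 1))]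
    congr 1
    omega
  rw [h1, h2]
  exact Nat.choose_le_choose _ (by omega)

variable {F : Type} [Field F] [Fintype F] {σ τ : Type} [Fintype σ] [Fintype τ]

theorem elim_add (x : σ → F) (y v : τ → F) (t : F) :
    (Sum.elim x (y + t • v) : σ ⊕ τ → F) = Sum.elim x y + t • Sum.elim (0 : σ → F) v := by
  funext i
  rcases i with i | i <;> simp

/-- **Main lemma.** -/
theorem core (k : ℕ) : ∀ (J : Type) [Fintype J] (φ : J → (σ ⊕ τ → F) → F) (d : J → ℕ)
    (_ : ∀ j, φ j ∈ P F (σ ⊕ τ) (d j)) (W : Submodule F (τ → F)) (x0 : σ → F) (y0 : τ → F)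
    (_ : ∀ j, φ j (Sum.elim x0 y0) = 0)
    (_ : ∑ j, (d j + k).choose (k + 1) + finrank F W + k ≤ Fintype.card τ),
    ∃ U : Submodule F (τ → F), Disjoint U W ∧ finrank F U = k ∧
      (∀ u ∈ U, ∀ j, φ j (Sum.elim x0 (y0 + u)) = 0) ∧
      Fintype.card F ^ (Fintype.card σ - ∑ j, (d j + k).choose (k + 1)) ≤
        Nat.card {x : σ → F // ∀ u ∈ U, ∀ j, φ j (Sum.elim x (y0 + u)) = 0} := by
  classical
  induction k with
  | zero =>
    intro J _ φ d hφ W x0 y0 h0 _
    refine ⟨⊥, disjoint_bot_left, finrank_bot F _, ?_, ?_⟩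
    · intro u hu j
      rw [Submodule.mem_bot] at hu
      rw [hu, add_zero]
      exact h0 j
    · have h1 := warning2 (fun j x => φ j (Sum.elim x y0)) d (fun j => left_mem (hφ j) y0) x0 h0
      have e1 : ∑ j, (d j + 0).choose (0 + 1) = ∑ j, d j := by simp
      rw [e1]
      refine h1.trans (le_of_eq ?_)
      refine Nat.card_congr (Equiv.subtypeEquivRight fun x => ?_)
      simp
  | succ k ih =>
    intro J _ φ d hφ W x0 y0 h0 hτ
    choose Φ hΦ using fun j => exists_expn (hφ j)
    -- the next direction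
    let q := Fintype.card F
    have hq : q = Fintype.card F := rfl
    have hq2 : 1 < q := Fintype.one_lt_card
    have h1 := warning2 (F := F) (σ := τ) (J := Σ j : J, Fin (d j))
      (fun a v => Φ a.1 ((a.2 : ℕ) + 1) (Sum.elim x0 y0) (Sum.elim 0 v)) (fun a => (a.2 : ℕ) + 1)
      (fun a => right_mem ((hΦ a.1).right ((a.2 : ℕ) + 1) (Sum.elim x0 y0)) 0) 0 (by
        intro a
        have e : (Sum.elim 0 0 : σ ⊕ τ → F) = 0 := by
          funext i
          rcases i with i | i <;> rfl
        rw [e]
        exact (hΦ a.1).zero _ _ (by omega))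
    rw [Fintype.sum_sigma] at h1
    simp only [gauss] at h1
    have h2 : ∑ j, (d j + 1).choose 2 ≤ ∑ j, (d j + (k + 1)).choose (k + 1 + 1) :=
      Finset.sum_le_sum fun j _ => choose_le (d j) k
    have h3 : Nat.card W < q ^ (Fintype.card τ - ∑ j, (d j + 1).choose 2) := by
      have e : Nat.card W = q ^ finrank F W := by
        rw [Module.natCard_eq_pow_finrank (K := F), Nat.card_eq_fintype_card]
      rw [e]
      exact Nat.pow_lt_pow_right hq2 (by omega)
    obtain ⟨v, hv, hvW⟩ : ∃ v : τ → F, (∀ a : Σ j : J, Fin (d j),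
        Φ a.1 ((a.2 : ℕ) + 1) (Sum.elim x0 y0) (Sum.elim 0 v) = 0) ∧ v ∉ W := by
      by_contra hcon
      push Not at hcon
      have h4 : Nat.card {v : τ → F // ∀ a : Σ j : J, Fin (d j),
          Φ a.1 ((a.2 : ℕ) + 1) (Sum.elim x0 y0) (Sum.elim 0 v) = 0} ≤ Nat.card W :=
        Nat.card_le_card_of_injective (fun v => (⟨v.1, hcon v.1 v.2⟩ : W)) fun v v' h => by
          apply Subtype.ext
          exact congrArg (fun w : W => (w : τ → F)) h
      exact absurd (h1.trans h4) (not_le.2 h3)
    -- the new family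
    have h5 := ih (Σ j : J, Fin (d j + 1)) (fun a z => Φ a.1 (a.2 : ℕ) z (Sum.elim 0 v))
      (fun a => d a.1 - (a.2 : ℕ)) (fun a => (hΦ a.1).left _ _) (W ⊔ Submodule.span F {v}) x0 y0
      (by
        rintro ⟨j, ⟨l, hl⟩⟩
        rcases Nat.eq_zero_or_pos l with rfl | hl0
        · change Φ j 0 _ _ = 0
          rw [(hΦ j).at_zero]
          exact h0 j
        · have := hv ⟨j, ⟨l - 1, by omega⟩⟩
          have e : l - 1 + 1 = l := by omega
          simp only [e] at this
          exact this)
      (by
        rw [Fintype.sum_sigma]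
        simp only [hockey]
        have h6 : finrank F ↥(W ⊔ Submodule.span F {v}) ≤ finrank F W + 1 := by
          refine (Submodule.finrank_add_le_finrank_add_finrank W (Submodule.span F {v})).trans ?_
          have h7 : finrank F (Submodule.span F ({v} : Set (τ → F))) ≤ 1 := by
            refine (finrank_span_le_card (R := F) ({v} : Set (τ → F))).trans ?_
            simp
          omega
        omega)
    rw [Fintype.sum_sigma] at h5
    simp only [hockey] at h5
    obtain ⟨U, hUW, hUk, hU0, hUc⟩ := h5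
    have hvU : v ∉ U := by
      intro h
      have h7 : v ∈ W ⊔ Submodule.span F {v} :=
        Submodule.mem_sup_right (Submodule.mem_span_singleton_self v)
      have h8 := Submodule.disjoint_def.1 hUW v h h7
      rw [h8] at hvW
      exact hvW (Submodule.zero_mem _)
    -- values on the larger flat
    have hval : ∀ x : σ → F, (∀ u ∈ U, ∀ a : Σ j : J, Fin (d j + 1),
        Φ a.1 (a.2 : ℕ) (Sum.elim x (y0 + u)) (Sum.elim 0 v) = 0) →
        ∀ u ∈ U ⊔ Submodule.span F {v}, ∀ j, φ j (Sum.elim x (y0 + u)) = 0 := by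
      intro x hx u hu j
      obtain ⟨u', hu', w, hw, rfl⟩ := Submodule.mem_sup.1 hu
      obtain ⟨t, rfl⟩ := Submodule.mem_span_singleton.1 hw
      rw [← add_assoc, elim_add, (hΦ j).eq]
      refine Finset.sum_eq_zero fun l hl => ?_
      rw [Finset.mem_range] at hl
      have := hx u' hu' ⟨j, ⟨l, hl⟩⟩
      simp only at this
      rw [this, mul_zero]
    refine ⟨U ⊔ Submodule.span F {v}, ?_, ?_, hval x0 hU0, ?_⟩
    · rw [Submodule.disjoint_def]
      intro w hw hwW
      obtain ⟨u', hu', w', hw', rfl⟩ := Submodule.mem_sup.1 hw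
      obtain ⟨t, rfl⟩ := Submodule.mem_span_singleton.1 hw'
      have h9 : u' ∈ W ⊔ Submodule.span F {v} := by
        have : u' = (u' + t • v) + (-t) • v := by
          rw [neg_smul, add_neg_cancel_right]
        rw [this]
        exact Submodule.add_mem _ (Submodule.mem_sup_left hwW)
          (Submodule.mem_sup_right (Submodule.smul_mem _ _ (Submodule.mem_span_singleton_self v)))
      have h10 := Submodule.disjoint_def.1 hUW u' hu' h9
      rw [h10, zero_add] at hwW ⊢
      by_cases ht : t = 0
      · rw [ht, zero_smul]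
      · exfalso
        have := Submodule.smul_mem W t⁻¹ hwW
        rw [inv_smul_smul₀ ht] at this
        exact hvW this
    · have hd : Disjoint U (Submodule.span F {v}) := hUW.mono_right le_sup_right
      have h11 := Submodule.finrank_sup_add_finrank_inf_eq U (Submodule.span F {v})
      rw [hd.eq_bot, finrank_bot, hUk, finrank_span_singleton (by
        intro h
        rw [h] at hvW
        exact hvW (Submodule.zero_mem _))] at h11
      omega
    · refine hUc.trans ?_
      refine Nat.card_le_card_of_injective (fun x => ⟨x.1, hval x.1 x.2⟩) fun x x' h => ?_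
      apply Subtype.ext
      exact congrArg (fun w : {x : σ → F // ∀ u ∈ U ⊔ Submodule.span F {v}, ∀ j,
        φ j (Sum.elim x (y0 + u)) = 0} => (w : σ → F)) h

end Pool.Agent.TH17.LD
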