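import Pool.Agent.TH17.LD.Warning

set_option autoImplicit false

/-!
# Expansion along a line
-/

namespace Pool.Agent.TH17.LD

open Finset

variable {F : Type} [Field F] {σ : Type} [Fintype σ]

/-- `φ (z + t v) = ∑ l ≤ D, t ^ l * Φ l z v`, of degree at most `D - l` in `z` and at most `l`
in `v` -/
structure Expn (D : ℕ) (φ : (σ → F) → F) (Φ : ℕ → (σ → F) → (σ → F) → F) : Prop where
  eq : ∀ z v (t : F), φ (z + t • v) = ∑ l ∈ range (D + 1), t ^ l * Φ l z v
  left : ∀ l v, (fun z => Φ l z v) ∈ P F σ (D - l)
  right : ∀ l z, (fun v => Φ l z v) ∈ P F σ l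
  zero : ∀ l z, l ≠ 0 → Φ l z 0 = 0
  top : ∀ l z v, D < l → Φ l z v = 0

theorem Expn.mono {D D' : ℕ} {φ : (σ → F) → F} {Φ : ℕ → (σ → F) → (σ → F) → F}
    (h : Expn D φ Φ) (hD : D ≤ D') : Expn D' φ Φ where
  eq z v t := by
    rw [h.eq]
    refine Finset.sum_subset (Finset.range_mono (by omega)) fun l _ hl => ?_
    rw [Finset.mem_range, not_lt] at hl
    rw [h.top l z v (by omega), mul_zero]
  left l v := P_mono (by omega) (h.left l v)
  right := h.right
  zero := h.zero
  top l z v hl := h.top l z v (by omega)

theorem expn_zero (D : ℕ) : Expn D (0 : (σ → F) → F) (fun _ _ _ => 0) where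
  eq z v t := by simp
  left l v := Submodule.zero_mem _
  right l z := Submodule.zero_mem _
  zero l z _ := rfl
  top l z v _ := rfl

theorem Expn.add {D : ℕ} {φ ψ : (σ → F) → F} {Φ Ψ : ℕ → (σ → F) → (σ → F) → F}
    (h : Expn D φ Φ) (h' : Expn D ψ Ψ) :
    Expn D (φ + ψ) (fun l z v => Φ l z v + Ψ l z v) where
  eq z v t := by
    rw [Pi.add_apply, h.eq, h'.eq, ← Finset.sum_add_distrib]
    exact Finset.sum_congr rfl fun l _ => by ring
  left l v := Submodule.add_mem _ (h.left l v) (h'.left l v)
  right l z := Submodule.add_mem _ (h.right l z) (h'.right l z)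
  zero l z hl := by
    rw [h.zero l z hl, h'.zero l z hl, add_zero]
  top l z v hl := by
    rw [h.top l z v hl, h'.top l z v hl, add_zero]

theorem Expn.smul {D : ℕ} {φ : (σ → F) → F} {Φ : ℕ → (σ → F) → (σ → F) → F}
    (h : Expn D φ Φ) (c : F) : Expn D (c • φ) (fun l z v => c * Φ l z v) where
  eq z v t := by
    rw [Pi.smul_apply, h.eq, smul_eq_mul, Finset.mul_sum]
    exact Finset.sum_congr rfl fun l _ => by ring
  left l v := Submodule.smul_mem _ c (h.left l v)
  right l z := Submodule.smul_mem _ c (h.right l z)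
  zero l z hl := by
    rw [h.zero l z hl, mul_zero]
  top l z v hl := by
    rw [h.top l z v hl, mul_zero]

theorem expn_one : Expn 0 (1 : (σ → F) → F) (fun l _ _ => if l = 0 then 1 else 0) where
  eq z v t := by simp
  left l v := const_mem _ _
  right l z := const_mem _ _
  zero l z hl := by simp [hl]
  top l z v hl := by
    have : l ≠ 0 := by omega
    simp [this]

theorem Expn.coord {D : ℕ} {φ : (σ → F) → F} {Φ : ℕ → (σ → F) → (σ → F) → F}
    (h : Expn D φ Φ) (i : σ) :
    Expn (D + 1) (fun z => z i * φ z)
      (fun l z v => z i * Φ l z v + (if l = 0 then 0 else v i * Φ (l - 1) z v)) where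
  eq z v t := by
    rw [h.eq, Pi.add_apply, Pi.smul_apply, smul_eq_mul, add_mul]
    simp only [mul_add, Finset.sum_add_distrib]
    congr 1
    · rw [Finset.sum_range_succ _ (D + 1), h.top (D + 1) z v (by omega), mul_zero, mul_zero,
        add_zero, Finset.mul_sum]
      exact Finset.sum_congr rfl fun l _ => by ring
    · rw [Finset.sum_range_succ' _ (D + 1)]
      simp only [Nat.add_eq_zero_iff, one_ne_zero, and_false, if_false, if_true,
        Nat.add_sub_cancel, mul_zero, add_zero]
      rw [Finset.mul_sum]
      exact Finset.sum_congr rfl fun l _ => by ring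
  left l v := by
    classical
    refine Submodule.add_mem _ ?_ ?_
    · by_cases hl : l ≤ D
      · have := mul_mem (coord_mem (F := F) i) (h.left l v)
        rw [show 1 + (D - l) = D + 1 - l by omega] at this
        exact this
      · have e : (fun z : σ → F => z i * Φ l z v) = 0 := by
          funext z
          rw [h.top l z v (by omega), mul_zero]
          rfl
        rw [e]
        exact Submodule.zero_mem _
    · by_cases hl : l = 0
      · simp only [hl, if_true]
        exact Submodule.zero_mem _
      · simp only [hl, if_false]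
        have := Submodule.smul_mem (P F σ (D - (l - 1))) (v i) (h.left (l - 1) v)
        refine P_mono ?_ this
        omega
  right l z := by
    classical
    refine Submodule.add_mem _ ?_ ?_
    · exact Submodule.smul_mem (P F σ l) (z i) (h.right l z)
    · by_cases hl : l = 0
      · simp only [hl, if_true]
        exact Submodule.zero_mem _
      · simp only [hl, if_false]
        have := mul_mem (coord_mem (F := F) i) (h.right (l - 1) z)
        rw [show 1 + (l - 1) = l by omega] at this
        exact this
  zero l z hl := by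
    simp [hl, h.zero l z hl]
  top l z v hl := by
    have h1 : l ≠ 0 := by omega
    simp only [h1, if_false]
    rw [h.top l z v (by omega), h.top (l - 1) z v (by omega)]
    ring

theorem expn_mono : ∀ (n : ℕ) (s : σ → ℕ), ∑ i, s i = n →
    ∃ Φ, Expn n (mono s : (σ → F) → F) Φ := by
  classical
  intro n
  induction n with
  | zero =>
    intro s hs
    have h0 : s = 0 := by
      funext i
      exact Finset.sum_eq_zero_iff.1 hs i (Finset.mem_univ i)
    subst h0
    refine ⟨fun l _ _ => if l = 0 then 1 else 0, ?_⟩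
    have e : (mono 0 : (σ → F) → F) = 1 := by
      funext x
      simp [mono]
    rw [e]
    exact expn_one
  | succ n ih =>
    intro s hs
    obtain ⟨i, hi⟩ : ∃ i, s i ≠ 0 := by
      by_contra h
      push Not at h
      simp [h] at hs
    obtain ⟨s', hs'⟩ : ∃ s' : σ → ℕ, s = s' + Pi.single i 1 := by
      refine ⟨Function.update s i (s i - 1), ?_⟩
      funext j
      by_cases hj : j = i
      · subst hj
        simp only [Pi.add_apply, Function.update_self, Pi.single_eq_same]
        omega
      · simp [hj]
    have hsum : ∑ j, s' j = n := by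
      rw [hs'] at hs
      simp only [Pi.add_apply, Finset.sum_add_distrib] at hs
      rw [Finset.sum_pi_single'] at hs
      simpa using hs
    obtain ⟨Φ, hΦ⟩ := ih s' hsum
    refine ⟨fun l z v => z i * Φ l z v + (if l = 0 then 0 else v i * Φ (l - 1) z v), ?_⟩
    have e : (mono s : (σ → F) → F) = fun z => z i * mono s' z := by
      funext z
      rw [hs']
      simp only [mono, Pi.add_apply, pow_add, Finset.prod_mul_distrib]
      rw [mul_comm]
      congr 1
      rw [Finset.prod_eq_single i]
      · simp
      · intro j _ hj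
        simp [hj]
      · simp
    rw [e]
    exact hΦ.coord i

theorem exists_expn {D : ℕ} {φ : (σ → F) → F} (h : φ ∈ P F σ D) : ∃ Φ, Expn D φ Φ := by
  induction h using Submodule.span_induction with
  | mem f hf =>
    obtain ⟨s, hs, rfl⟩ := hf
    obtain ⟨Φ, hΦ⟩ := expn_mono (F := F) _ s rfl
    exact ⟨Φ, hΦ.mono hs⟩
  | zero => exact ⟨_, expn_zero D⟩
  | add f g _ _ hf hg =>
    obtain ⟨Φ, hΦ⟩ := hf
    obtain ⟨Ψ, hΨ⟩ := hg
    exact ⟨_, hΦ.add hΨ⟩
  | smul c f _ hf =>
    obtain ⟨Φ, hΦ⟩ := hf
    exact ⟨_, hΦ.smul c⟩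

theorem Expn.at_zero {D : ℕ} {φ : (σ → F) → F} {Φ : ℕ → (σ → F) → (σ → F) → F}
    (h : Expn D φ Φ) (z v : σ → F) : Φ 0 z v = φ z := by
  have h1 := h.eq z v 0
  rw [zero_smul, add_zero, Finset.sum_range_succ'] at h1
  simp only [pow_succ, mul_zero, zero_mul, Finset.sum_const_zero, zero_add, pow_zero,
    one_mul] at h1
  exact h1.symm

end Pool.Agent.TH17.LD
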