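import Pool.Agent.TH17.LD.Base

set_option autoImplicit false

/-!
# Warning's second theorem
-/

namespace Pool.Agent.TH17.LD

open Finset

variable {F : Type} [Field F]

/-- degree `0` -/
theorem P_zero {σ : Type} [Fintype σ] {φ : (σ → F) → F} (h : φ ∈ P F σ 0) (x y : σ → F) :
    φ x = φ y := by
  induction h using Submodule.span_induction with
  | mem f hf =>
    obtain ⟨s, hs, rfl⟩ := hf
    have h0 : ∀ i, s i = 0 := by
      intro i
      have := Finset.sum_eq_zero_iff.1 (Nat.le_zero.1 hs) i (Finset.mem_univ i)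
      exact this
    simp [mono, h0]
  | zero => rfl
  | add f g _ _ hf hg => simp [hf, hg]
  | smul c f _ hf => simp [hf]

/-- the quotient by a linear factor -/
theorem exists_div {n D : ℕ} {φ : (Fin (n + 1) → F) → F} (h : φ ∈ P F (Fin (n + 1)) (D + 1))
    (c : F) : ∃ ψ ∈ P F (Fin (n + 1)) D,
      ∀ x, φ x - φ (Fin.cons c (Fin.tail x)) = (x 0 - c) * ψ x := by
  induction h using Submodule.span_induction with
  | mem f hf =>
    obtain ⟨s, hs, rfl⟩ := hf
    rw [Fin.sum_univ_succ] at hs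
    refine ⟨∑ j ∈ range (s 0), c ^ (s 0 - 1 - j) • (mono (Fin.cons j (Fin.tail s)) :
      (Fin (n + 1) → F) → F), Submodule.sum_mem _ fun j hj => Submodule.smul_mem _ _ (mono_mem ?_),
      fun x => ?_⟩
    · rw [Finset.mem_range] at hj
      rw [Fin.sum_univ_succ]
      simp only [Fin.cons_zero, Fin.cons_succ, Fin.tail]
      omega
    · simp only [Finset.sum_apply, Pi.smul_apply, smul_eq_mul, mono, Fin.prod_univ_succ,
        Fin.cons_zero, Fin.cons_succ, Fin.tail]
      have e : ∑ j ∈ range (s 0), c ^ (s 0 - 1 - j) * (x 0 ^ j * ∏ i : Fin n, x i.succ ^ s i.succ) =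
          (∑ j ∈ range (s 0), x 0 ^ j * c ^ (s 0 - 1 - j)) * ∏ i : Fin n, x i.succ ^ s i.succ := by
        rw [Finset.sum_mul]
        exact Finset.sum_congr rfl fun j _ => by ring
      rw [e, ← mul_assoc, (Commute.all (x 0) c).mul_geom_sum₂]
      ring
  | zero => exact ⟨0, Submodule.zero_mem _, fun x => by simp⟩
  | add f g _ _ hf hg =>
    obtain ⟨ψ, h1, h2⟩ := hf
    obtain ⟨ψ', h1', h2'⟩ := hg
    refine ⟨ψ + ψ', Submodule.add_mem _ h1 h1', fun x => ?_⟩
    simp only [Pi.add_apply]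
    rw [mul_add, ← h2, ← h2']
    ring
  | smul a f _ hf =>
    obtain ⟨ψ, h1, h2⟩ := hf
    refine ⟨a • ψ, Submodule.smul_mem _ _ h1, fun x => ?_⟩
    simp only [Pi.smul_apply, smul_eq_mul]
    rw [mul_left_comm, ← h2]
    ring

/-- division by the linear factors of the hyperplanes on which the function vanishes -/
theorem exists_prod [DecidableEq F] {n : ℕ} (T : Finset F) : ∀ {D : ℕ} {φ : (Fin (n + 1) → F) → F},
    φ ∈ P F (Fin (n + 1)) D → φ ≠ 0 →
    (∀ c ∈ T, ∀ x : Fin n → F, φ (Fin.cons c x) = 0) →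
    T.card ≤ D ∧ ∃ ψ ∈ P F (Fin (n + 1)) (D - T.card), ∀ x, φ x = (∏ c ∈ T, (x 0 - c)) * ψ x := by
  induction T using Finset.induction_on with
  | empty => exact fun h _ _ => ⟨Nat.zero_le _, _, h, fun x => by simp⟩
  | insert c T hc ih =>
    intro D φ hφ h0 hv
    obtain ⟨h1, ψ, h2, h3⟩ := ih hφ h0 fun c' hc' => hv c' (Finset.mem_insert_of_mem hc')
    have hψ0 : ∀ x : Fin n → F, ψ (Fin.cons c x) = 0 := by
      intro x
      have h4 := hv c (Finset.mem_insert_self _ _) x
      rw [h3] at h4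
      rcases mul_eq_zero.1 h4 with h5 | h5
      · exfalso
        rw [Finset.prod_eq_zero_iff] at h5
        obtain ⟨c', hc', h6⟩ := h5
        rw [Fin.cons_zero, sub_eq_zero] at h6
        exact hc (h6 ▸ hc')
      · exact h5
    rw [Finset.card_insert_of_notMem hc]
    rcases Nat.eq_zero_or_pos (D - T.card) with h4 | h4
    · exfalso
      rw [h4] at h2
      refine h0 (funext fun x => ?_)
      rw [h3, P_zero h2 x (Fin.cons c (Fin.tail x)), hψ0, mul_zero]
      rfl
    · obtain ⟨D', hD'⟩ : ∃ D', D - T.card = D' + 1 := ⟨D - T.card - 1, by omega⟩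
      rw [hD'] at h2
      obtain ⟨ψ', h5, h6⟩ := exists_div h2 c
      refine ⟨by omega, ψ', ?_, fun x => ?_⟩
      · have : D - (T.card + 1) = D' := by omega
        rw [this]
        exact h5
      · have h7 := h6 x
        rw [hψ0, sub_zero] at h7
        rw [h3, h7, Finset.prod_insert hc]
        ring

/-- the number of points where a function does not vanish -/
noncomputable def nz [Fintype F] {n : ℕ} (φ : (Fin n → F) → F) : ℕ := Nat.card {x // φ x ≠ 0}

theorem nz_succ [Fintype F] {n : ℕ} (φ : (Fin (n + 1) → F) → F) :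
    nz φ = ∑ c : F, nz (fun x : Fin n → F => φ (Fin.cons c x)) := by
  classical
  unfold nz
  simp only [Nat.card_eq_fintype_card, Fintype.card_subtype]
  simp only [Finset.card_filter]
  rw [← (Fin.consEquiv (fun _ => F)).sum_comp, Fintype.sum_prod_type]
  rfl

theorem bern (q s : ℕ) (hs : 1 ≤ s) (hq : s ≤ q) (hq2 : 2 ≤ q) :
    (q : ℝ) ^ (((s : ℝ) - 1) / ((q : ℝ) - 1)) ≤ s := by
  have h1 : (1 : ℝ) ≤ s := by exact_mod_cast hs
  have h2 : (s : ℝ) ≤ q := by exact_mod_cast hq
  have h3 : (2 : ℝ) ≤ q := by exact_mod_cast hq2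
  have h4 := rpow_one_add_le_one_add_mul_self (s := (q : ℝ) - 1) (by linarith)
    (p := ((s : ℝ) - 1) / ((q : ℝ) - 1)) (by apply div_nonneg <;> linarith)
    (by rw [div_le_one (by linarith)]; linarith)
  rw [show (1 : ℝ) + ((q : ℝ) - 1) = q by ring] at h4
  refine h4.trans (le_of_eq ?_)
  have : (q : ℝ) - 1 ≠ 0 := by linarith
  field_simp
  ring

/-- **The minimum distance of the generalised Reed-Muller codes** -/
theorem nz_ge [Fintype F] : ∀ (n : ℕ) (D : ℕ) (φ : (Fin n → F) → F), φ ∈ P F (Fin n) D → φ ≠ 0 →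
    (Fintype.card F : ℝ) ^ ((n : ℝ) - D / ((Fintype.card F : ℝ) - 1)) ≤ nz φ := by
  classical
  intro n
  have hq2 : 2 ≤ Fintype.card F := Fintype.one_lt_card
  have hq2' : (2 : ℝ) ≤ Fintype.card F := by exact_mod_cast hq2
  induction n with
  | zero =>
    intro D φ _ h0
    have h1 : 1 ≤ nz φ := by
      obtain ⟨x, hx⟩ := Function.ne_iff.1 h0
      unfold nz
      have : Nonempty {x // φ x ≠ 0} := ⟨⟨x, hx⟩⟩
      exact Nat.card_pos
    have h2 : (Fintype.card F : ℝ) ^ (((0 : ℕ) : ℝ) - D / ((Fintype.card F : ℝ) - 1)) ≤ 1 := by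
      refine Real.rpow_le_one_of_one_le_of_nonpos (by linarith) ?_
      have : 0 ≤ (D : ℝ) / ((Fintype.card F : ℝ) - 1) := by
        apply div_nonneg
        · positivity
        · linarith
      simpa using this
    exact h2.trans (by exact_mod_cast h1)
  | succ n ih =>
    intro D φ hφ h0
    set q := Fintype.card F with hq
    let T : Finset F := univ.filter fun c => ∀ x : Fin n → F, φ (Fin.cons c x) = 0
    let S : Finset F := univ.filter fun c => ¬ ∀ x : Fin n → F, φ (Fin.cons c x) = 0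
    have hTS : T.card + S.card = q := by
      have := Finset.card_filter_add_card_filter_not (s := (univ : Finset F))
        (fun c => ∀ x : Fin n → F, φ (Fin.cons c x) = 0)
      rw [Finset.card_univ] at this
      exact this
    obtain ⟨h1, ψ, h2, h3⟩ := exists_prod T hφ h0 fun c hc => (Finset.mem_filter.1 hc).2
    have hS1 : 1 ≤ S.card := by
      rw [Nat.one_le_iff_ne_zero, Ne, Finset.card_eq_zero]
      intro hS
      refine h0 (funext fun x => ?_)
      by_contra hx
      have : x 0 ∈ S := by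
        refine Finset.mem_filter.2 ⟨Finset.mem_univ _, fun h => hx ?_⟩
        have := h (Fin.tail x)
        rwa [Fin.cons_self_tail] at this
      rw [hS] at this
      exact absurd this (Finset.notMem_empty _)
    have hD : (((D - T.card : ℕ) : ℝ)) = D - (q - S.card) := by
      rw [Nat.cast_sub h1]
      have : (T.card : ℝ) + S.card = q := by exact_mod_cast hTS
      linarith
    have key : ∀ c ∈ S, (q : ℝ) ^ ((n : ℝ) - ((D - T.card : ℕ) : ℝ) / ((q : ℝ) - 1)) ≤
        nz (fun x : Fin n → F => φ (Fin.cons c x)) := by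
      intro c hc
      have hc2 := (Finset.mem_filter.1 hc).2
      have hκ : (∏ c' ∈ T, (c - c')) ≠ 0 := by
        rw [Finset.prod_ne_zero_iff]
        intro c' hc' h4
        rw [sub_eq_zero] at h4
        exact hc2 (h4 ▸ (Finset.mem_filter.1 hc').2)
      have h4 : ∀ x : Fin n → F, φ (Fin.cons c x) = (∏ c' ∈ T, (c - c')) * ψ (Fin.cons c x) := by
        intro x
        rw [h3, Fin.cons_zero]
      have h5 : nz (fun x : Fin n → F => φ (Fin.cons c x)) =
          nz (fun x : Fin n → F => ψ (Fin.cons c x)) := by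
        unfold nz
        refine Nat.card_congr (Equiv.subtypeEquivRight fun x => ?_)
        change φ (Fin.cons c x) ≠ 0 ↔ ψ (Fin.cons c x) ≠ 0
        rw [h4]
        simp [hκ]
      rw [h5]
      refine ih _ _ (cons_mem h2 c) fun h6 => hc2 fun x => ?_
      rw [h4, show ψ (Fin.cons c x) = 0 from congrFun h6 x, mul_zero]
    have hsum : (S.card : ℝ) * (q : ℝ) ^ ((n : ℝ) - ((D - T.card : ℕ) : ℝ) / ((q : ℝ) - 1)) ≤
        nz φ := by
      rw [nz_succ]
      push_cast
      calc (S.card : ℝ) * (q : ℝ) ^ ((n : ℝ) - ((D - T.card : ℕ) : ℝ) / ((q : ℝ) - 1))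
          = ∑ c ∈ S, (q : ℝ) ^ ((n : ℝ) - ((D - T.card : ℕ) : ℝ) / ((q : ℝ) - 1)) := by
            rw [Finset.sum_const, nsmul_eq_mul]
        _ ≤ ∑ c ∈ S, (nz (fun x : Fin n → F => φ (Fin.cons c x)) : ℝ) := Finset.sum_le_sum key
        _ ≤ ∑ c : F, (nz (fun x : Fin n → F => φ (Fin.cons c x)) : ℝ) :=
            Finset.sum_le_sum_of_subset_of_nonneg (Finset.subset_univ _) fun _ _ _ => by positivity
    refine le_trans ?_ hsum
    have hb := bern q S.card hS1 (by omega) hq2
    have hpos : (0 : ℝ) < (q : ℝ) ^ ((n : ℝ) - ((D - T.card : ℕ) : ℝ) / ((q : ℝ) - 1)) :=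
      Real.rpow_pos_of_pos (by linarith) _
    refine le_trans (le_of_eq ?_) (mul_le_mul_of_nonneg_right hb hpos.le)
    rw [← Real.rpow_add (by linarith)]
    congr 1
    rw [hD]
    have hq1 : (q : ℝ) - 1 ≠ 0 := by linarith
    push_cast
    field_simp
    ring

/-- **Warning's second theorem** for functions given by polynomials. -/
theorem warning2 [Fintype F] {σ : Type} [Fintype σ] {J : Type} [Fintype J]
    (φ : J → (σ → F) → F) (d : J → ℕ) (hφ : ∀ j, φ j ∈ P F σ (d j))
    (x0 : σ → F) (h0 : ∀ j, φ j x0 = 0) :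
    Fintype.card F ^ (Fintype.card σ - ∑ j, d j) ≤ Nat.card {x : σ → F // ∀ j, φ j x = 0} := by
  classical
  set q := Fintype.card F with hq
  have hq2 : 2 ≤ Fintype.card F := Fintype.one_lt_card
  have hq2' : (2 : ℝ) ≤ q := by exact_mod_cast hq2
  rcases Nat.lt_or_ge (∑ j, d j) (Fintype.card σ) with hlt | hge
  swap
  · rw [Nat.sub_eq_zero_of_le hge, pow_zero]
    have : Nonempty {x : σ → F // ∀ j, φ j x = 0} := ⟨⟨x0, h0⟩⟩
    exact Nat.card_pos
  -- the indicator function
  let Q : (σ → F) → F := ∏ j, (1 - φ j ^ (q - 1))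
  have hQ : ∀ x, Q x = if ∀ j, φ j x = 0 then 1 else 0 := by
    intro x
    simp only [Q, Finset.prod_apply, Pi.sub_apply, Pi.one_apply, Pi.pow_apply]
    split_ifs with h
    · refine Finset.prod_eq_one fun j _ => ?_
      rw [h j, zero_pow (by omega), sub_zero]
    · push Not at h
      obtain ⟨j, hj⟩ := h
      refine Finset.prod_eq_zero (Finset.mem_univ j) ?_
      rw [FiniteField.pow_card_sub_one_eq_one _ hj, sub_self]
  have hQm : Q ∈ P F σ (∑ j, (q - 1) * d j) := by
    refine prod_mem _ _ _ fun j _ => ?_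
    exact Submodule.sub_mem _ (one_mem _) (pow_mem (hφ j) _)
  rw [← Finset.mul_sum] at hQm
  let e : σ ≃ Fin (Fintype.card σ) := Fintype.equivFin σ
  have h1 := nz_ge (Fintype.card σ) _ _ (reindex_mem hQm e) (by
    intro h
    have h2 := congrFun h (x0 ∘ e.symm)
    simp only [Function.comp_assoc, Equiv.symm_comp_self, Function.comp_id] at h2
    rw [hQ, if_pos h0] at h2
    exact one_ne_zero h2)
  have h2 : nz (fun x : Fin (Fintype.card σ) → F => Q (x ∘ e)) =
      Nat.card {x : σ → F // ∀ j, φ j x = 0} := by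
    unfold nz
    refine Nat.card_congr ((Equiv.arrowCongr e.symm (Equiv.refl F)).subtypeEquiv fun x => ?_)
    change Q (x ∘ e) ≠ 0 ↔ _
    rw [hQ]
    have e1 : (Equiv.arrowCongr e.symm (Equiv.refl F)) x = x ∘ e := by
      funext i
      simp
    rw [e1]
    simp
  rw [h2] at h1
  have h3 : (q : ℝ) ^ (Fintype.card σ - ∑ j, d j) ≤ Nat.card {x : σ → F // ∀ j, φ j x = 0} := by
    refine le_trans (le_of_eq ?_) h1
    rw [← Real.rpow_natCast, Nat.cast_sub hlt.le]
    congr 1
    rw [← hq]
    push_cast [Nat.cast_sub (show 1 ≤ q by omega)]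
    have : (q : ℝ) - 1 ≠ 0 := by linarith
    field_simp
  exact_mod_cast h3

end Pool.Agent.TH17.LD
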